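import Pool.Agent.H622R2.Exp.N1
import Pool.Agent.H622R2.Exp.G
import Pool.Agent.H622R2.Exp.B
import Pool.Agent.H620R2.Gauge.Cover

/-!
# The exponential hierarchy with advice does not compute the parity language

The event that an algorithm with a constant number of alternating quantifiers over strings of
simply exponential length, with advice of `2 ^ (n - 1)` bits for the inputs of length `n`, decides
the padded parity language on all inputs of length `n`.
-/

set_option autoImplicit false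

namespace Pool.Agent.J4H65.NE

open Pool.Agent.NPC Pool.Agent.H620R2.Gauge Pool.Agent.H622R2.Exp Finset H568R2 Pool.Agent.H676

/-- The exponential hierarchy relative to `A` with long advice: a constant number of alternating
quantifiers over the strings of length at most `2 ^ q(|x|)`, where `q` is in `E`, in front of a
property decidable in polynomial time relative to `A`; the algorithm gets, besides the input `x` of
length `n`, an arbitrary string `h n` of length at most `2 ^ n / 2`. -/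
def InAltAdv (E : Set (Polynomial ℕ)) (A : Oracle) (L : Set (List Bool)) : Prop :=
  ∃ V : List Bool → List Bool, IsFP A V ∧ ∃ q ∈ E, ∃ (k : ℕ) (h : ℕ → List Bool),
    (∀ n, 2 * (h n).length ≤ 2 ^ n) ∧ ∀ x : List Bool,
      (x ∈ L ↔ Quant (2 ^ q.eval x.length) V k true (pairBits x (h x.length)))

/-- the advice strings -/
def advs (n : ℕ) : Finset (List Bool) := (Finset.range (2 ^ n / 2 + 1)).biUnion strsOf

theorem mem_advs {n : ℕ} {h : List Bool} (hh : 2 * h.length ≤ 2 ^ n) : h ∈ advs n := by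
  unfold advs
  rw [Finset.mem_biUnion]
  exact ⟨h.length, Finset.mem_range.2 (by omega), mem_strsOf h⟩

theorem length_of_mem_advs {n : ℕ} {h : List Bool} (hh : h ∈ advs n) : h.length ≤ 2 ^ n := by
  unfold advs at hh
  rw [Finset.mem_biUnion] at hh
  obtain ⟨c, hc, hh⟩ := hh
  obtain ⟨i, _, rfl⟩ := Finset.mem_image.1 hh
  rw [length_bitsOf]
  rw [Finset.mem_range] at hc
  have : 1 ≤ 2 ^ n := Nat.one_le_two_pow
  omega

theorem card_advs (n : ℕ) : (advs n).card ≤ 2 ^ (2 ^ n / 2 + 1) := by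
  unfold advs
  refine Finset.card_biUnion_le.trans ?_
  have h1 : ∀ m : ℕ, ∑ c ∈ Finset.range m, (strsOf c).card ≤ 2 ^ m := by
    intro m
    induction m with
    | zero => simp
    | succ m ih =>
      rw [Finset.sum_range_succ, pow_succ]
      have := card_strsOf m
      omega
  exact h1 _

/-- The event. -/
def EvQ (M : Alg) (q : Polynomial ℕ) (k n N : ℕ) (a : Fin N → Bool) : Prop :=
  ∃ h ∈ advs n, ∀ j ∈ Finset.range (2 ^ n),
    QF (2 ^ q.eval n) (leaf M N) k true (pairBits (bitsOf n j) h) a =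
      par (blk N (padq q4 (bitsOf n j))) a

/-- the length of all strings that occur, and a bit more -/
noncomputable def Wl (q : Polynomial ℕ) (k n : ℕ) : ℕ :=
  2 * n + 1 + 2 ^ n + k * (2 * 2 ^ q.eval n + 1) + 2

/-- the depth of the decision trees -/
noncomputable def tt (M : Alg) (q : Polynomial ℕ) (k n : ℕ) : ℕ :=
  M.p.eval (Wl q k n) + Wl q k n + k + 2 ^ n + 1

theorem tb_Wl (q : Polynomial ℕ) (k : ℕ) : E0.TB (fun n => Wl q k n) := by
  have h2 : E0.TB (fun n : ℕ => 2 ^ n) := by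
    have := E0.TB.pow2 Polynomial.X
    simpa using this
  unfold Wl
  exact (((((E0.TB.const 2).mul E0.TB.id).add (E0.TB.const 1)).add h2).add
    ((E0.TB.const k).mul (((E0.TB.const 2).mul (E0.TB.pow2 q)).add (E0.TB.const 1)))).add
      (E0.TB.const 2)

theorem tb_tt (M : Alg) (q : Polynomial ℕ) (k : ℕ) : E0.TB (fun n => tt M q k n) := by
  have h2 : E0.TB (fun n : ℕ => 2 ^ n) := by
    have := E0.TB.pow2 Polynomial.X
    simpa using this
  unfold tt
  exact (((((tb_Wl q k).eval M.p).add (tb_Wl q k)).add (E0.TB.const k)).add h2).add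
    (E0.TB.const 1)

open Classical in
/-- The probability of the event. -/
theorem evQ_bound (M : Alg) (q : Polynomial ℕ) (k : ℕ) : ∃ n₀ : ℕ, ∀ n ≥ n₀, ∀ N : ℕ,
    2 ^ (2 * mm n + 1) ≤ N →
    Ex unif (fun a : Fin N → Bool => if EvQ M q k n N a then (1 : ℝ) else 0) ≤
      3 * (11 / 12) ^ 2 ^ n := by
  have hTB : E0.TB (fun n => (2 ^ n * tt M q k n + 1) *
      (2 ^ n + 2 ^ n * (2 ^ n * tt M q k n + 1) + 2) * (24 * tt M q k n) ^ k) := by
    have h2 : E0.TB (fun n : ℕ => 2 ^ n) := by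
      have := E0.TB.pow2 Polynomial.X
      simpa using this
    have h3 := (h2.mul (tb_tt M q k)).add (E0.TB.const 1)
    exact (h3.mul ((h2.add (h2.mul h3)).add (E0.TB.const 2))).mul
      (((E0.TB.const 24).mul (tb_tt M q k)).pow k)
  obtain ⟨n₀, hn₀⟩ := Filter.eventually_atTop.1 hTB.le
  refine ⟨max n₀ 1, fun n hn N hN => ?_⟩
  have hbig := hn₀ n ((le_max_left _ _).trans hn)
  have hn1 : 1 ≤ n := (le_max_right _ _).trans hn
  set t : ℕ := tt M q k n with ht
  set W : ℕ := Wl q k n with hW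
  have htt : t = M.p.eval W + W + k + 2 ^ n + 1 := rfl
  have h2n : 1 ≤ 2 ^ n := Nat.one_le_two_pow
  have ht1 : 1 ≤ t := by omega
  have htR : (1 : ℝ) ≤ (t : ℝ) := by exact_mod_cast ht1
  set x : ℝ := 1 / (24 * t) with hx
  have hx0 : 0 ≤ x := by positivity
  have hx1 : x ≤ 1 / 3 := by
    rw [hx, div_le_div_iff₀ (by positivity) (by norm_num)]
    linarith
  set r : ℕ := 2 ^ n * t with hr
  set s : ℕ := 2 ^ mm n / (r + 1) with hs
  set m : ℕ := 2 ^ q.eval n with hm
  have hWe : W = 2 * n + 1 + 2 ^ n + k * (2 * m + 1) + 2 := rfl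
  have hlen : ∀ i, (bitsOf n i).length = n := fun i => length_bitsOf n i
  have hpl : ∀ i, (padq q4 (bitsOf n i)).length = mm n := fun i => by
    rw [E0.length_padq4, hlen]
  have h1 := comb (I := Fin N) ht1 hx0 hx1 m (leaf M N) k (2 * n + 1 + 2 ^ n) (by
      intro y hy
      refine (dtr_out M N y).mono ?_
      have : M.p.eval y.length ≤ M.p.eval W := eval_mono _ (by omega)
      omega) (Finset.range (2 ^ n)) (fun j => blk N (padq q4 (bitsOf n j))) (by
      intro j hj j' hj' hne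
      rw [Finset.mem_range] at hj hj'
      apply blk_disj
      · rw [hpl, hpl]
      · intro h
        exact hne (bitsOf_inj hj hj' (E0.padq_inj h))) (advs n)
      (fun j h => pairBits (bitsOf n j) h) (by
      intro j _ h hh
      rw [length_pairBits, length_bitsOf]
      have := length_of_mem_advs hh
      omega) r s (by rw [Finset.card_range]) (by
      intro j _
      rw [blk_card N _ (by rw [hpl]; omega), hpl]
      exact Nat.mul_div_le _ _)
  have h0 : Ex unif (fun a : Fin N → Bool => if EvQ M q k n N a then (1 : ℝ) else 0) ≤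
      k * 2 ^ (2 * n + 1 + 2 ^ n + k * (2 * m + 1) + 2) * (12 * t * x) ^ (t + 1) +
        (Finset.range (2 ^ n)).card * ((r + 1) * (1 - x ^ k) ^ s) +
        (advs n).card * (1 / 2) ^ (Finset.range (2 ^ n)).card := by
    refine (Ex_mono unif_nonneg (fun a => ?_)).trans h1
    by_cases h : EvQ M q k n N a
    · have h' := h
      unfold EvQ at h'
      rw [if_pos h, if_pos h']
    · have h' := h
      unfold EvQ at h'
      rw [if_neg h, if_neg h']
  refine h0.trans ?_
  rw [Finset.card_range]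
  -- the first term
  have hxt : 12 * (t : ℝ) * x = 1 / 2 := by
    rw [hx]; field_simp; norm_num
  have T1 : (k : ℝ) * 2 ^ (2 * n + 1 + 2 ^ n + k * (2 * m + 1) + 2) * (12 * t * x) ^ (t + 1) ≤
      1 / 4 * (1 / 2) ^ 2 ^ n := by
    rw [hxt, ← hWe]
    have e1 : (k : ℝ) ≤ 2 ^ k := by exact_mod_cast (Nat.lt_two_pow_self (n := k)).le
    have e2 : (1 / 2 : ℝ) ^ (t + 1) ≤ (1 / 2) ^ (W + k + 2 ^ n + 2) :=
      pow_le_pow_of_le_one (by norm_num) (by norm_num) (by omega)
    calc (k : ℝ) * 2 ^ W * (1 / 2) ^ (t + 1) ≤ 2 ^ k * 2 ^ W * (1 / 2) ^ (W + k + 2 ^ n + 2) := by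
          gcongr
      _ = (2 ^ k * (1 / 2) ^ k) * (2 ^ W * (1 / 2) ^ W) * (1 / 2) ^ 2 ^ n * (1 / 2) ^ 2 := by
          rw [pow_add, pow_add, pow_add]; ring
      _ = _ := by
          rw [← mul_pow, ← mul_pow]; norm_num; ring
  -- the second term
  have T2 : ((2 ^ n : ℕ) : ℝ) * ((r + 1) * (1 - x ^ k) ^ s) ≤ 1 / 4 * (1 / 2) ^ 2 ^ n := by
    set G : ℕ := 2 ^ n * (r + 1) with hG
    set Y : ℕ := 2 ^ n + G + 2 with hY
    have hs1 : Y * (24 * t) ^ k ≤ s := by
      rw [hs, Nat.le_div_iff_mul_le (by omega)]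
      have hmm : 2 ^ n ≤ mm n := by
        have := E0.mm_ge n
        have h3 : 2 ^ n ≤ 2 ^ (n + 3) := Nat.pow_le_pow_right (by norm_num) (by omega)
        omega
      refine le_trans (le_of_eq ?_) (hbig.trans (Nat.pow_le_pow_right (by norm_num) hmm))
      rw [hY, hG, hr]
      ring
    have hxk : x ^ k * (24 * t) ^ k = 1 := by
      rw [← mul_pow, hx, one_div, inv_mul_cancel₀ (by positivity), one_pow]
    have hYs : (Y : ℝ) ≤ x ^ k * s := by
      have h3 : ((Y * (24 * t) ^ k : ℕ) : ℝ) ≤ s := by exact_mod_cast hs1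
      push_cast at h3
      calc (Y : ℝ) = x ^ k * (Y * (24 * t) ^ k) := by
            rw [mul_comm (Y : ℝ), ← mul_assoc, hxk, one_mul]
        _ ≤ x ^ k * s := mul_le_mul_of_nonneg_left h3 (pow_nonneg hx0 k)
    have hx1' : x ^ k ≤ 1 := pow_le_one₀ hx0 (by linarith)
    have h4 : (1 - x ^ k) ^ s ≤ (1 / 2) ^ Y := by
      calc (1 - x ^ k) ^ s ≤ (Real.exp (-(x ^ k))) ^ s := by
            apply pow_le_pow_left₀ (by linarith)
            have := Real.add_one_le_exp (-(x ^ k))
            linarith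
        _ = Real.exp (-(x ^ k * s)) := by rw [← Real.exp_nat_mul]; congr 1; ring
        _ ≤ Real.exp (-(Y : ℝ)) := by
            apply Real.exp_le_exp.2
            linarith
        _ = (Real.exp (-1)) ^ Y := by
            rw [← Real.exp_nat_mul]; congr 1; ring
        _ ≤ (1 / 2) ^ Y := by
            apply pow_le_pow_left₀ (Real.exp_pos _).le
            rw [Real.exp_neg, one_div]
            apply inv_anti₀ (by norm_num)
            have := Real.add_one_le_exp (1 : ℝ)
            linarith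
    have hG1 : (G : ℝ) * (1 / 2) ^ G ≤ 1 := by
      have h5 : (G : ℝ) ≤ 2 ^ G := by exact_mod_cast (Nat.lt_two_pow_self (n := G)).le
      calc (G : ℝ) * (1 / 2) ^ G ≤ 2 ^ G * (1 / 2) ^ G := by gcongr
        _ = 1 := by rw [← mul_pow]; norm_num
    calc ((2 ^ n : ℕ) : ℝ) * ((r + 1) * (1 - x ^ k) ^ s) = (G : ℝ) * (1 - x ^ k) ^ s := by
          rw [hG]; push_cast; ring
      _ ≤ (G : ℝ) * (1 / 2) ^ Y := by gcongr
      _ = ((G : ℝ) * (1 / 2) ^ G) * ((1 / 4) * (1 / 2) ^ 2 ^ n) := by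
          rw [hY, pow_add, pow_add]; ring
      _ ≤ 1 * ((1 / 4) * (1 / 2) ^ 2 ^ n) := by gcongr
      _ = _ := one_mul _
  -- the third term
  have T3 : ((advs n).card : ℝ) * (1 / 2) ^ 2 ^ n ≤ 2 * (11 / 12) ^ 2 ^ n := by
    obtain ⟨n', rfl⟩ : ∃ n', n = n' + 1 := ⟨n - 1, by omega⟩
    have e1 : (2 : ℕ) ^ (n' + 1) / 2 = 2 ^ n' := by
      rw [pow_succ]; omega
    have e2 : ((advs (n' + 1)).card : ℝ) ≤ 2 ^ (2 ^ n' + 1) := by
      have := card_advs (n' + 1)
      rw [e1] at this
      exact_mod_cast this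
    calc ((advs (n' + 1)).card : ℝ) * (1 / 2) ^ 2 ^ (n' + 1)
        ≤ 2 ^ (2 ^ n' + 1) * (1 / 2) ^ 2 ^ (n' + 1) := by gcongr
      _ = 2 * (1 / 2) ^ 2 ^ n' := by
          have e3 : (2 : ℕ) ^ (n' + 1) = 2 ^ n' + 2 ^ n' := by ring
          rw [e3, pow_add (1 / 2 : ℝ), pow_succ]
          have e4 : (2 : ℝ) ^ 2 ^ n' * (1 / 2) ^ 2 ^ n' = 1 := by rw [← mul_pow]; norm_num
          calc _ = (2 : ℝ) ^ 2 ^ n' * (1 / 2) ^ 2 ^ n' * (2 * (1 / 2) ^ 2 ^ n') := by ring
            _ = _ := by rw [e4, one_mul]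
      _ ≤ 2 * (11 / 12) ^ 2 ^ (n' + 1) := by
          apply mul_le_mul_of_nonneg_left _ (by norm_num)
          have e5 : (2 : ℕ) ^ (n' + 1) = 2 * 2 ^ n' := by ring
          rw [e5, pow_mul]
          apply pow_le_pow_left₀ (by norm_num)
          norm_num
  have T4 : (1 / 2 : ℝ) ^ 2 ^ n ≤ (11 / 12) ^ 2 ^ n :=
    pow_le_pow_left₀ (by norm_num) (by norm_num) _
  have T5 : (0 : ℝ) < (11 / 12) ^ 2 ^ n := by positivity
  linarith

end Pool.Agent.J4H65.NE
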