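import Pool.Agent.J4H65.NE.NullQ
import Pool.Agent.H529R3.Gap.Main
import Pool.Agent.H620R2.Gauge2.Trans

/-!
# The exact gauge of the set of the oracles with `NE = ESPACE`
-/

set_option autoImplicit false

namespace Pool.Agent.J4H65.NE

open Pool.Agent.NPC Pool.Agent.H622R2 Pool.Agent.H620R2.Gauge Pool.Agent.H622R2.Exp Filter

/-- remove the advice below `k` quantified strings -/
def unadv : ℕ → List Bool → List Bool
  | 0, y => (unpair y).1
  | k + 1, y => pairBits (unpair y).1 (unadv k (unpair y).2)

theorem poly_unadv (k : ℕ) : Poly (unadv k) := by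
  induction k with
  | zero => exact Poly.fst poly_unpair
  | succ k ih => exact poly_pairBits (Poly.fst poly_unpair) (ih.comp (Poly.snd poly_unpair))

theorem quant_unadv (m : ℕ) (V : List Bool → List Bool) (h : List Bool) :
    ∀ (k j : ℕ) (b : Bool) (y z : List Bool), unadv j z = y →
      (Quant m (fun u => V (unadv (j + k) u)) k b z ↔ Quant m V k b y) := by
  intro k
  induction k with
  | zero =>
    intro j b y z hz
    simp only [Quant, Nat.add_zero, hz]
  | succ k ih =>
    intro j b y z hz
    have key : ∀ w : List Bool, ∀ c : Bool,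
        (Quant m (fun u => V (unadv (j + (k + 1)) u)) k c (pairBits w z) ↔
          Quant m V k c (pairBits w y)) := by
      intro w c
      have h1 := ih (j + 1) c (pairBits w y) (pairBits w z) (by
        show pairBits (unpair (pairBits w z)).1 (unadv j (unpair (pairBits w z)).2) = _
        rw [unpair_pairBits, hz])
      have e : j + 1 + k = j + (k + 1) := by ring
      rw [e] at h1
      exact h1
    cases b with
    | true =>
      simp only [Quant]
      exact exists_congr fun w => and_congr_right fun _ => key w false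
    | false =>
      simp only [Quant]
      exact forall_congr' fun w => forall_congr' fun _ => key w true

theorem InAlt.adv {E : Set (Polynomial ℕ)} {A : Oracle} {L : Set (List Bool)}
    (h : InAlt E A L) : InAltAdv E A L := by
  obtain ⟨V, hV, q, hq, k, hL⟩ := h
  refine ⟨fun y => V (unadv k y), hV.precomp (poly_unadv k), q, hq, k, fun _ => [], fun n => by
    simp, fun x => ?_⟩
  rw [hL x]
  have h1 := quant_unadv (2 ^ q.eval x.length) V [] k 0 true x (pairBits x []) (by
    show (unpair (pairBits x [])).1 = x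
    rw [unpair_pairBits])
  rw [Nat.zero_add] at h1
  exact h1.symm

/-- the condition on the gauge, for linear exponents -/
def CondL (f : ℕ → ℝ) : Prop :=
  ∀ ε : ℝ, 0 < ε → ∃ᶠ N : ℕ in atTop, f N ≤ (Real.logb 2 N) ^ ε

/-- the condition on the gauge, for polynomial exponents -/
def CondP (f : ℕ → ℝ) : Prop :=
  ∀ ε : ℝ, 0 < ε → ∃ᶠ N : ℕ in atTop, f N ≤ 2 ^ (Real.logb 2 (Real.logb 2 N)) ^ ε

theorem null_lin {f : ℕ → ℝ} (hf : CondL f) (O : Set Oracle)
    (hO : ∀ A ∈ O, ∀ L, InSpace Lin A L → InAltAdv Lin A L) : Null f O :=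
  (nullQ good_Lin (asyE hf)).mono fun A hA => hO A hA _ (par2_space good_Lin A)

theorem null_pol {f : ℕ → ℝ} (hf : CondP f) (O : Set Oracle)
    (hO : ∀ A ∈ O, ∀ L, InSpace Pol A L → InAltAdv Pol A L) : Null f O :=
  (nullQ good_Pol (asyEXP hf)).mono fun A hA => hO A hA _ (par2_space good_Pol A)

/-- Linear exponents: a set of oracles between `ESPACE = E`, `PSPACE` not in `PH/poly`, and
`ESPACE` contained in the exponential hierarchy with advice. -/
theorem exact_lin (f : ℕ → ℝ) (O : Set Oracle)
    (h1 : ∀ A : Oracle, (∀ L, InSpace Lin A L → InTime Lin A L) →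
      (∃ L, IsPSPACE A L ∧ ¬ IsPHpoly A L) → A ∈ O)
    (h2 : ∀ A ∈ O, ∀ L, InSpace Lin A L → InAltAdv Lin A L) :
    Null f O ↔ CondL f := by
  refine ⟨?_, fun hf => null_lin hf O h2⟩
  intro hn ε hε
  by_contra hcon
  rw [not_frequently] at hcon
  set g : ℕ → ℝ := fun N => min (f N) ((Real.logb 2 N) ^ ε) with hg
  have hgO : Null g O := H529R3.Lev.null_anti (fun N => min_le_left _ _) hn
  have hgP : Null g {A : Oracle | ∀ L, IsPSPACE A L → IsPHpoly A L} := by
    refine null_of_frequently g (fun ε' hε' => ?_) _ fun A hA => hA _ (parLang_pspace A)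
    exact ((H529R3.Gap.tendsto_log.eventually (H529R3.Gap.rpow_le_two hε hε')).mono
      fun N h => (min_le_right _ _).trans h).frequently
  refine notNullE (f := g) (half_pos hε) ?_
    {A : Oracle | ∀ L, InSpace Lin A L → InTime Lin A L} (fun A hA => hA)
    ((null_union hgO hgP).mono ?_)
  · filter_upwards [hcon, H529R3.Gap.tendsto_log.eventually_gt_atTop 1] with N h3 h4
    have h5 : (Real.logb 2 N) ^ (ε / 2) < (Real.logb 2 N) ^ ε :=
      Real.rpow_lt_rpow_of_exponent_lt h4 (by linarith)
    exact lt_min (h5.trans (not_le.1 h3)) h5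
  · intro A hA
    by_cases h3 : ∃ L, IsPSPACE A L ∧ ¬ IsPHpoly A L
    · exact Or.inl (h1 A hA h3)
    · right
      push Not at h3
      exact h3

/-- Polynomial exponents: a set of oracles between `EXPSPACE = EXP`, `ESPACE` not in the
exponential hierarchy with linear exponents and advice, and `EXPSPACE` contained in the exponential
hierarchy with advice. -/
theorem exact_pol (f : ℕ → ℝ) (O : Set Oracle)
    (h1 : ∀ A : Oracle, (∀ L, InSpace Pol A L → InTime Pol A L) →
      (∃ L, InSpace Lin A L ∧ ¬ InAltAdv Lin A L) → A ∈ O)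
    (h2 : ∀ A ∈ O, ∀ L, InSpace Pol A L → InAltAdv Pol A L) :
    Null f O ↔ CondP f := by
  refine ⟨?_, fun hf => null_pol hf O h2⟩
  intro hn ε hε
  by_contra hcon
  rw [not_frequently] at hcon
  set ε₁ : ℝ := min ε (1 / 2) with hε₁
  have hε₁0 : 0 < ε₁ := lt_min hε (by norm_num)
  set F : ℕ → ℝ := fun N => 2 ^ (Real.logb 2 (Real.logb 2 N)) ^ ε₁ with hF
  set g : ℕ → ℝ := fun N => min (f N) (F N) with hg
  have hgO : Null g O := H529R3.Lev.null_anti (fun N => min_le_left _ _) hn
  have hgE : Null g {A : Oracle | ∀ L, InSpace Lin A L → InAltAdv Lin A L} := by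
    refine null_lin (fun ε' hε' => ?_) _ fun A hA => hA
    apply Eventually.frequently
    filter_upwards [H529R3.Gap.tendsto_loglog.eventually
      (H529R3.Gap.rpow_le_mul (show ε₁ < 1 from (min_le_right _ _).trans_lt (by norm_num)) hε'),
      H529R3.Gap.tendsto_log.eventually_gt_atTop 0] with N h3 h4
    refine (min_le_right _ _).trans ?_
    calc F N ≤ (2 : ℝ) ^ (ε' * Real.logb 2 (Real.logb 2 N)) :=
          Real.rpow_le_rpow_of_exponent_le (by norm_num) h3
      _ = (Real.logb 2 N) ^ ε' := by
          rw [mul_comm, Real.rpow_mul (by norm_num),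
            Real.rpow_logb (by norm_num) (by norm_num) h4]
  refine notNullEXP (f := g) (half_pos hε₁0) ?_
    {A : Oracle | ∀ L, InSpace Pol A L → InTime Pol A L} (fun A hA => hA)
    ((null_union hgO hgE).mono ?_)
  · filter_upwards [hcon, H529R3.Gap.tendsto_loglog.eventually_gt_atTop 1] with N h3 h4
    have h5 : (2 : ℝ) ^ (Real.logb 2 (Real.logb 2 N)) ^ (ε₁ / 2) < F N :=
      Real.rpow_lt_rpow_of_exponent_lt (by norm_num)
        (Real.rpow_lt_rpow_of_exponent_lt h4 (by linarith))
    have h6 : F N ≤ 2 ^ (Real.logb 2 (Real.logb 2 N)) ^ ε :=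
      Real.rpow_le_rpow_of_exponent_le (by norm_num)
        (Real.rpow_le_rpow_of_exponent_le h4.le (min_le_left _ _))
    exact lt_min (h5.trans_le (h6.trans (not_le.1 h3).le)) h5
  · intro A hA
    by_cases h3 : ∃ L, InSpace Lin A L ∧ ¬ InAltAdv Lin A L
    · exact Or.inl (h1 A hA h3)
    · right
      push Not at h3
      exact h3

end Pool.Agent.J4H65.NE
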