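import Pool.Agent.J4H65.NE.Ev

/-!
# The oracles for which the parity language is in the exponential hierarchy with advice
-/

set_option autoImplicit false

namespace Pool.Agent.J4H65.NE

open Pool.Agent.NPC Pool.Agent.H620R2.Gauge Pool.Agent.H622R2.Exp Finset H568R2 Pool.Agent.H676

/-- the oracles for which the parameters are good -/
def XQ (E : Set (Polynomial ℕ)) (θ : Alg × E × ℕ) : Set Oracle :=
  {A | ∃ (V : List Bool → List Bool) (h : ℕ → List Bool),
    (∀ x, θ.1.out A x = some (V x)) ∧ (∀ n, 2 * (h n).length ≤ 2 ^ n) ∧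
    ∀ x, x ∈ par2 A ↔ Quant (2 ^ (θ.2.1 : Polynomial ℕ).eval x.length) V θ.2.2 true
      (pairBits x (h x.length))}

theorem mem_XQ {E : Set (Polynomial ℕ)} {A : Oracle} (h : InAltAdv E A (par2 A)) :
    ∃ θ, A ∈ XQ E θ := by
  obtain ⟨V, ⟨M, hM⟩, q, hq, k, h, hh, hx⟩ := h
  exact ⟨(M, ⟨q, hq⟩, k), V, h, hM, hh, hx⟩

theorem evQ_of {E : Set (Polynomial ℕ)} (hE : Good E) (M : Alg) {q : Polynomial ℕ} (hq : q ∈ E)
    (k : ℕ) : ∃ r ∈ E, (∀ n, 3 * mm n + 1 ≤ 2 ^ r.eval n) ∧ ∀ A ∈ XQ E (M, ⟨q, hq⟩, k),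
      ∀ n N : ℕ, 2 ^ 2 ^ r.eval n ≤ N → EvQ M q k n N (pre N A) := by
  obtain ⟨qb, hqb⟩ := Alg.out_local M
  set b : Polynomial ℕ := qb.comp (Polynomial.C 2 * Polynomial.X + 1 + Polynomial.X +
    Polynomial.C k * (Polynomial.C 2 * Polynomial.X + 1) + Polynomial.C 2) with hb
  have hq' : q + Polynomial.C 1 * (Polynomial.X + 1) ∈ E := hE.add q hq _ (hE.lin 1)
  obtain ⟨r, hr, h⟩ := F1.exists_exponent hE b hq'
  have hbound : ∀ n, qb.eval (Wl q k n) ≤
      b.eval (n + 2 ^ (q + Polynomial.C 1 * (Polynomial.X + 1)).eval n) := by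
    intro n
    rw [hb, Polynomial.eval_comp]
    apply eval_mono
    simp only [Polynomial.eval_add, Polynomial.eval_mul, Polynomial.eval_C, Polynomial.eval_X,
      Polynomial.eval_one]
    unfold Wl
    have h1 : 2 ^ n ≤ 2 ^ (q.eval n + 1 * (n + 1)) := Nat.pow_le_pow_right (by norm_num) (by omega)
    have h2 : 2 ^ q.eval n ≤ 2 ^ (q.eval n + 1 * (n + 1)) :=
      Nat.pow_le_pow_right (by norm_num) (by omega)
    have h3 : k * (2 * 2 ^ q.eval n + 1) ≤
        k * (2 * (n + 2 ^ (q.eval n + 1 * (n + 1))) + 1) := Nat.mul_le_mul_left _ (by omega)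
    have h4 : 1 ≤ 2 ^ n := Nat.one_le_two_pow
    omega
  refine ⟨r, hr, fun n => by have := h n; omega, ?_⟩
  rintro A ⟨V, ad, hM, had, hx⟩ n N hN
  have hn := h n
  have hbn := hbound n
  refine ⟨ad n, mem_advs (had n), fun j hj => ?_⟩
  have hlen : (bitsOf n j).length = n := length_bitsOf n j
  have hpl : (padq q4 (bitsOf n j)).length = mm n := by rw [E0.length_padq4, hlen]
  have hV : ∀ y : List Bool, y.length ≤ Wl q k n →
      (V y = [true] ↔ leaf M N y (pre N A) = true) := by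
    intro y hy
    obtain ⟨Q, _, hQl, hQA⟩ := hqb A y
    have h1 : M.out (orc N (pre N A)) y = M.out A y := by
      apply hQA
      intro z hz
      refine F1.orc_of_len hN ?_
      have h3 : z.length ≤ qb.eval (Wl q k n) := (hQl z hz).trans (eval_mono _ hy)
      omega
    unfold leaf
    have h2 : M.out A y = some (V y) := hM y
    rw [h1, h2, decide_eq_true_eq, Option.some.injEq]
  have h1 := hx (bitsOf n j)
  rw [hlen] at h1
  have hN' : 2 ^ (2 * (padq q4 (bitsOf n j)).length + 1) ≤ N + 1 := by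
    rw [hpl]
    have h4 : 2 ^ (2 * mm n + 1) ≤ 2 ^ 2 ^ r.eval n :=
      Nat.pow_le_pow_right (by norm_num) (by omega)
    omega
  have h2 := blk_par N A (padq q4 (bitsOf n j)) hN'
  have h3 := quant_iff (m := 2 ^ q.eval n) (Wl q k n) hV k true
    (pairBits (bitsOf n j) (ad n)) (by
      rw [length_pairBits, hlen]
      unfold Wl
      have := had n
      omega)
  have h4 : QF (2 ^ q.eval n) (leaf M N) k true (pairBits (bitsOf n j) (ad n))
      (pre N A) = true ↔ par (blk N (padq q4 (bitsOf n j))) (pre N A) = true := by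
    rw [h2, ← h3]
    exact h1.symm
  cases hb : par (blk N (padq q4 (bitsOf n j))) (pre N A) with
  | true => exact h4.2 hb
  | false =>
    rw [← Bool.not_eq_true, h4, hb]
    simp

/-- The set of the oracles relative to which the parity language is in the exponential hierarchy
with advice is null for small gauges. -/
theorem nullQ {E : Set (Polynomial ℕ)} (hE : Good E) {f : ℕ → ℝ}
    (hf : Asy E f (fun n => 3 * (11 / 12) ^ 2 ^ n)) : Null f {A | InAltAdv E A (par2 A)} := by
  classical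
  have hc : Countable (Polynomial ℕ) := N1.countable_poly
  have hcE : Countable E := inferInstance
  refine (null_iUnion (f := f) (XQ E) fun θ => ?_).mono fun A hA => ?_
  · obtain ⟨M, ⟨q, hq⟩, k⟩ := θ
    intro δ hδ
    obtain ⟨r, hr, hr1, hr2⟩ := evQ_of hE M hq k
    obtain ⟨n₀, hn₀⟩ := evQ_bound M q k
    obtain ⟨n, N, hn, hN, hb⟩ := hf r hr δ hδ n₀
    have h1 := hr1 n
    have hN1 : 2 ^ (2 * mm n + 1) ≤ N :=
      le_trans (Nat.pow_le_pow_right (by norm_num) (by omega)) hN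
    refine cover_of_event (EvQ M q k n N) (XQ E (M, ⟨q, hq⟩, k))
      (fun A hA => hr2 A hA n N hN) f δ ?_
    exact (mul_le_mul_of_nonneg_right (hn₀ n hn N hN1) (by positivity)).trans hb
  · obtain ⟨θ, hθ⟩ := mem_XQ hA
    exact Set.mem_iUnion.2 ⟨θ, hθ⟩

end Pool.Agent.J4H65.NE
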